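import Pool.Agent.Q73.Vor.Comb

/-!
# Estimates for the coefficients
-/

set_option autoImplicit false

open Finset Nat

namespace Q73.Vor

/-- `(n)_m / n^m` -/
noncomputable def uu (n m : ℕ) : ℝ := (n.descFactorial m : ℝ) / (n : ℝ) ^ m

theorem uu_zero (n : ℕ) : uu n 0 = 1 := by simp [uu]

theorem uu_succ {n : ℕ} (hn : 1 ≤ n) (m : ℕ) : uu n (m + 1) = uu n m * (1 - m / n) := by
  have hn0 : (n : ℝ) ≠ 0 := by
    have : n ≠ 0 := by omega
    exact_mod_cast this
  unfold uu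
  rw [descFactorial_succ, pow_succ]
  rcases le_or_gt m n with h | h
  · rw [Nat.cast_mul, Nat.cast_sub h]
    field_simp
  · rw [descFactorial_of_lt h]
    simp

theorem uu_nonneg (n m : ℕ) : 0 ≤ uu n m := by unfold uu; positivity

theorem uu_le_one {n : ℕ} (hn : 1 ≤ n) (m : ℕ) : uu n m ≤ 1 := by
  have hn0 : (0 : ℝ) < n := by exact_mod_cast hn
  unfold uu
  rw [div_le_one (by positivity)]
  exact_mod_cast Nat.descFactorial_le_pow n m

theorem uu_bound1 {n : ℕ} (hn : 1 ≤ n) (m : ℕ) : 1 - uu n m ≤ (m : ℝ) ^ 2 / n := by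
  have hn0 : (0 : ℝ) < n := by exact_mod_cast hn
  induction m with
  | zero => simp [uu_zero]
  | succ m ih =>
    rw [uu_succ hn]
    have h1 := uu_le_one hn m
    have h2 := uu_nonneg n m
    have h3 : uu n m * ((m : ℝ) / n) ≤ (m : ℝ) / n := mul_le_of_le_one_left (by positivity) h1
    have h4 : ((m + 1 : ℕ) : ℝ) ^ 2 / n = (m : ℝ) ^ 2 / n + 2 * (m / n) + 1 / n := by
      push_cast
      field_simp
      ring
    rw [h4]
    have h5 : 0 ≤ (m : ℝ) / n := by positivity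
    have h6 : 0 ≤ 1 / (n : ℝ) := by positivity
    linarith

theorem uu_bound2 {n : ℕ} (hn : 1 ≤ n) (m : ℕ) :
    |uu n m - (1 - (m : ℝ) * (m - 1) / (2 * n))| ≤ (m : ℝ) ^ 4 / n ^ 2 := by
  have hn0 : (0 : ℝ) < n := by exact_mod_cast hn
  induction m with
  | zero => simp [uu_zero]
  | succ m ih =>
    have h1 := uu_le_one hn m
    have h2 := uu_bound1 hn m
    have e : uu n (m + 1) - (1 - ((m + 1 : ℕ) : ℝ) * (((m + 1 : ℕ) : ℝ) - 1) / (2 * n)) =
        (uu n m - (1 - (m : ℝ) * (m - 1) / (2 * n))) + m / n * (1 - uu n m) := by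
      rw [uu_succ hn]
      push_cast
      field_simp
      ring
    rw [e]
    refine (abs_add_le _ _).trans ?_
    have h3 : |(m : ℝ) / n * (1 - uu n m)| ≤ (m : ℝ) ^ 3 / n ^ 2 := by
      rw [abs_of_nonneg (mul_nonneg (by positivity) (by linarith))]
      calc (m : ℝ) / n * (1 - uu n m) ≤ (m : ℝ) / n * ((m : ℝ) ^ 2 / n) :=
            mul_le_mul_of_nonneg_left h2 (by positivity)
        _ = (m : ℝ) ^ 3 / n ^ 2 := by field_simp
    have h4 : ((m + 1 : ℕ) : ℝ) ^ 4 / n ^ 2 =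
        (m : ℝ) ^ 4 / n ^ 2 + (m : ℝ) ^ 3 / n ^ 2 + (3 * (m : ℝ) ^ 3 + 6 * (m : ℝ) ^ 2 + 4 * m + 1) / n ^ 2 := by
      push_cast
      field_simp
      ring
    rw [h4]
    have h5 : 0 ≤ (3 * (m : ℝ) ^ 3 + 6 * (m : ℝ) ^ 2 + 4 * m + 1) / n ^ 2 := by positivity
    linarith

/-- the one-variable weights -/
noncomputable def PP (n k i : ℕ) : ℝ := (stirlingSecond k i : ℝ) * (n.descFactorial i : ℝ) / (n : ℝ) ^ k

theorem PP_nonneg (n k i : ℕ) : 0 ≤ PP n k i := by unfold PP; positivity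

theorem PP_sum {n : ℕ} (hn : 1 ≤ n) (k : ℕ) : ∑ i ∈ range (k + 1), PP n k i = 1 := by
  have hn0 : (0 : ℝ) < n := by exact_mod_cast hn
  unfold PP
  rw [← sum_div, div_eq_one_iff_eq (by positivity)]
  exact_mod_cast (pow_eq_sum n k).symm

theorem PP_le_one {n : ℕ} (hn : 1 ≤ n) {k i : ℕ} (hi : i ≤ k) : PP n k i ≤ 1 := by
  rw [← PP_sum hn k]
  exact single_le_sum (f := fun i => PP n k i) (fun _ _ => PP_nonneg _ _ _) (mem_range.2 (by omega))

theorem PP_self (n k : ℕ) : PP n k k = uu n k := by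
  unfold PP uu
  rw [stirlingSecond_self, Nat.cast_one, one_mul]

theorem choose_two_cast (k : ℕ) : (((k + 1).choose 2 : ℕ) : ℝ) = ((k : ℝ) + 1) * k / 2 := by
  rw [Nat.cast_choose_two]
  push_cast
  ring

theorem PP_pred {n : ℕ} (hn : 1 ≤ n) (k : ℕ) :
    PP n (k + 1) k = ((k : ℝ) + 1) * k / (2 * n) * uu n k := by
  have hn0 : (n : ℝ) ≠ 0 := by
    have : n ≠ 0 := by omega
    exact_mod_cast this
  unfold PP uu
  rw [stirlingSecond_succ_self_left, choose_two_cast, pow_succ]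
  field_simp

theorem PP_pred_le {n : ℕ} (hn : 1 ≤ n) (k : ℕ) : PP n (k + 1) k ≤ ((k : ℝ) + 1) ^ 2 / n := by
  have hn0 : (0 : ℝ) < n := by exact_mod_cast hn
  rw [PP_pred hn]
  have h1 := uu_le_one hn k
  calc ((k : ℝ) + 1) * k / (2 * n) * uu n k ≤ ((k : ℝ) + 1) * k / (2 * n) * 1 :=
        mul_le_mul_of_nonneg_left h1 (by positivity)
    _ ≤ ((k : ℝ) + 1) ^ 2 / n := by
        rw [mul_one, div_le_div_iff₀ (by positivity) hn0]
        have : (0 : ℝ) ≤ k := k.cast_nonneg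
        nlinarith [mul_nonneg this hn0.le, mul_nonneg (mul_nonneg this this) hn0.le]

theorem PP_tail {n : ℕ} (hn : 1 ≤ n) (k : ℕ) :
    ∑ i ∈ range (k - 1), PP n k i ≤ 3 * (k : ℝ) ^ 4 / n ^ 2 := by
  have hn0 : (0 : ℝ) < n := by exact_mod_cast hn
  rcases k with _ | _ | k
  · simp
  · simp only [zero_add, Nat.sub_self, range_zero, sum_empty]
    positivity
  · have h1 := PP_sum hn (k + 1 + 1)
    rw [sum_range_succ, sum_range_succ, PP_self, PP_pred hn] at h1
    have h2 := uu_bound2 hn (k + 1 + 1)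
    have h3 := uu_bound1 hn (k + 1)
    have h4 := (abs_le.1 h2).1
    rw [show k + 1 + 1 - 1 = k + 1 by omega]
    push_cast at h1 h2 h3 h4 ⊢
    have h5 : ((k : ℝ) + 1 + 1) * (k + 1) / (2 * n) * (1 - uu n (k + 1)) ≤
        ((k : ℝ) + 1 + 1) ^ 4 / n ^ 2 := by
      calc ((k : ℝ) + 1 + 1) * (k + 1) / (2 * n) * (1 - uu n (k + 1))
          ≤ ((k : ℝ) + 1 + 1) * (k + 1) / (2 * n) * (((k : ℝ) + 1) ^ 2 / n) :=
            mul_le_mul_of_nonneg_left h3 (by positivity)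
        _ = ((k : ℝ) + 1 + 1) * (k + 1) ^ 3 / (2 * n ^ 2) := by
            field_simp
        _ ≤ ((k : ℝ) + 1 + 1) ^ 4 / n ^ 2 := by
            rw [div_le_div_iff₀ (by positivity) (by positivity)]
            have hk : (0 : ℝ) ≤ k := k.cast_nonneg
            have h6 : ((k : ℝ) + 1) ^ 3 ≤ ((k : ℝ) + 1 + 1) ^ 3 := by
              gcongr
              linarith
            have h7 : ((k : ℝ) + 1 + 1) * ((k : ℝ) + 1) ^ 3 ≤ ((k : ℝ) + 1 + 1) ^ 4 := by
              calc ((k : ℝ) + 1 + 1) * ((k : ℝ) + 1) ^ 3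
                  ≤ ((k : ℝ) + 1 + 1) * ((k : ℝ) + 1 + 1) ^ 3 :=
                    mul_le_mul_of_nonneg_left h6 (by linarith)
                _ = _ := by ring
            nlinarith [mul_le_mul_of_nonneg_right h7 (sq_nonneg (n : ℝ)),
              mul_nonneg (pow_nonneg (by linarith : (0:ℝ) ≤ (k : ℝ) + 1 + 1) 4) (sq_nonneg (n : ℝ))]
    have h8 : 3 * ((k : ℝ) + 1 + 1) ^ 4 / n ^ 2 = ((k : ℝ) + 1 + 1) ^ 4 / n ^ 2 +
        ((k : ℝ) + 1 + 1) ^ 4 / n ^ 2 + ((k : ℝ) + 1 + 1) ^ 4 / n ^ 2 := by ring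
    have h9 : 0 ≤ ((k : ℝ) + 1 + 1) ^ 4 / n ^ 2 := by positivity
    have h10 : ((k : ℝ) + 1 + 1) * ((k : ℝ) + 1 + 1 - 1) / (2 * n) =
        ((k : ℝ) + 1 + 1) * (k + 1) / (2 * n) := by ring
    rw [h10] at h4
    rw [h8]
    linarith

theorem cc_nonneg (n k j i l : ℕ) : 0 ≤ cc n k j i l := by unfold cc; positivity

theorem desc_add_le (n i l : ℕ) : n.descFactorial (i + l) ≤ n.descFactorial i * n.descFactorial l := by
  have h := Nat.descFactorial_mul_descFactorial (n := n) (k := i) (m := i + l) (Nat.le_add_right i l)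
  rw [Nat.add_sub_cancel_left] at h
  rw [← h, mul_comm]
  exact Nat.mul_le_mul_left _ (Nat.descFactorial_le _ (Nat.sub_le n i))

theorem cc_le (n k j i l : ℕ) : cc n k j i l ≤ PP n k i * PP n j l := by
  unfold cc PP
  rw [_root_.div_mul_div_comm, ← pow_add]
  refine div_le_div_of_nonneg_right ?_ (by positivity)
  have h : (n.descFactorial (i + l) : ℝ) ≤ (n.descFactorial i : ℝ) * (n.descFactorial l : ℝ) := by
    exact_mod_cast desc_add_le n i l
  calc (stirlingSecond k i : ℝ) * (stirlingSecond j l : ℝ) * (n.descFactorial (i + l) : ℝ)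
      ≤ (stirlingSecond k i : ℝ) * (stirlingSecond j l : ℝ) *
        ((n.descFactorial i : ℝ) * (n.descFactorial l : ℝ)) :=
        mul_le_mul_of_nonneg_left h (by positivity)
    _ = _ := by ring

theorem cc_top (n k j : ℕ) : cc n k j k j = uu n (k + j) := by
  unfold cc uu
  rw [stirlingSecond_self, stirlingSecond_self]
  simp

theorem cc_pred_left {n : ℕ} (hn : 1 ≤ n) (k j : ℕ) :
    cc n (k + 1) j k j = ((k : ℝ) + 1) * k / (2 * n) * uu n (k + j) := by
  have hn0 : (n : ℝ) ≠ 0 := by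
    have : n ≠ 0 := by omega
    exact_mod_cast this
  unfold cc uu
  rw [stirlingSecond_self, stirlingSecond_succ_self_left, choose_two_cast,
    show k + 1 + j = k + j + 1 by ring, pow_succ]
  field_simp
  simp

theorem cc_symm (n k j i l : ℕ) : cc n k j i l = cc n j k l i := by
  unfold cc
  rw [add_comm i l, add_comm k j]
  ring

end Q73.Vor
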