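import Mathlib

/-!
# Bernstein polynomials on the simplex: factorial moments
-/

set_option autoImplicit false

open Finset Nat

namespace Q73.Vor

/-- expansion of powers in falling factorials -/
theorem pow_eq_sum (a k : ℕ) :
    a ^ k = ∑ i ∈ range (k + 1), stirlingSecond k i * a.descFactorial i := by
  induction k with
  | zero => simp
  | succ k ih =>
    rw [sum_range_succ', stirlingSecond_succ_zero, zero_mul, add_zero]
    have h1 : ∀ i ∈ range (k + 1), stirlingSecond (k + 1) (i + 1) * a.descFactorial (i + 1) =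
        (i + 1) * stirlingSecond k (i + 1) * a.descFactorial (i + 1) +
          stirlingSecond k i * a.descFactorial (i + 1) := by
      intro i _
      rw [stirlingSecond_succ_succ]
      ring
    rw [sum_congr rfl h1, sum_add_distrib]
    have h2 : ∑ i ∈ range (k + 1), (i + 1) * stirlingSecond k (i + 1) * a.descFactorial (i + 1) =
        ∑ i ∈ range (k + 1), i * stirlingSecond k i * a.descFactorial i := by
      have e1 := sum_range_succ' (fun i => i * stirlingSecond k i * a.descFactorial i) (k + 1)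
      have e2 := sum_range_succ (fun i => i * stirlingSecond k i * a.descFactorial i) (k + 1)
      rw [stirlingSecond_eq_zero_of_lt (Nat.lt_succ_self k), mul_zero, zero_mul, add_zero] at e2
      rw [zero_mul, zero_mul, add_zero] at e1
      rw [← e2, e1]
    rw [h2, ← sum_add_distrib, pow_succ, ih, sum_mul]
    refine sum_congr rfl fun i _ => ?_
    rw [descFactorial_succ]
    rcases le_or_gt i a with h | h
    · obtain ⟨d, rfl⟩ := Nat.exists_eq_add_of_le h
      rw [Nat.add_sub_cancel_left]
      ring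
    · rw [descFactorial_of_lt h]
      ring

theorem choose_mul_desc (i M b : ℕ) :
    (i + M).choose (i + b) * (i + b).descFactorial i = (i + M).descFactorial i * M.choose b := by
  rcases le_or_gt b M with h | h
  · have h1 := Nat.choose_mul (n := i + M) (k := i + b) (s := i) (by omega)
    rw [descFactorial_eq_factorial_mul_choose, descFactorial_eq_factorial_mul_choose]
    rw [Nat.add_sub_cancel_left, Nat.add_sub_cancel_left] at h1
    calc (i + M).choose (i + b) * (i ! * (i + b).choose i)
        = i ! * ((i + M).choose (i + b) * (i + b).choose i) := by ring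
      _ = _ := by rw [h1]; ring
  · rw [Nat.choose_eq_zero_of_lt h, Nat.choose_eq_zero_of_lt (by omega)]
    simp

/-- factorial moments of the binomial distribution -/
theorem binom_moment (N i : ℕ) (x y : ℂ) :
    ∑ a ∈ range (N + 1), (N.choose a : ℂ) * (a.descFactorial i : ℂ) * x ^ a * y ^ (N - a) =
      (N.descFactorial i : ℂ) * x ^ i * (x + y) ^ (N - i) := by
  rcases le_or_gt i N with h | h
  · obtain ⟨M, rfl⟩ := Nat.exists_eq_add_of_le h
    rw [add_assoc, sum_range_add]
    have h1 : ∑ a ∈ range i, ((i + M).choose a : ℂ) * (a.descFactorial i : ℂ) * x ^ a *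
        y ^ (i + M - a) = 0 := by
      refine sum_eq_zero fun a ha => ?_
      rw [descFactorial_of_lt (mem_range.1 ha)]
      simp
    rw [h1, zero_add, Nat.add_sub_cancel_left, add_pow, mul_sum]
    refine sum_congr rfl fun b hb => ?_
    have h2 := choose_mul_desc i M b
    have h3 : ((i + M).choose (i + b) : ℂ) * ((i + b).descFactorial i : ℂ) =
        ((i + M).descFactorial i : ℂ) * (M.choose b : ℂ) := by exact_mod_cast h2
    rw [h3, pow_add, show i + M - (i + b) = M - b by omega]
    ring
  · rw [descFactorial_of_lt h]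
    simp only [Nat.cast_zero, zero_mul]
    refine sum_eq_zero fun a ha => ?_
    rw [descFactorial_of_lt (lt_of_le_of_lt (Nat.lt_succ_iff.1 (mem_range.1 ha)) h)]
    simp

theorem choose_mul_desc' (n k l : ℕ) (hk : k ≤ n) :
    n.choose k * (n - k).descFactorial l = n.descFactorial l * (n - l).choose k := by
  rcases le_or_gt (k + l) n with h | h
  · rw [descFactorial_eq_factorial_mul_choose, descFactorial_eq_factorial_mul_choose]
    have h1 := Nat.choose_mul (n := n) (k := k + l) (s := k) (by omega)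
    have h2 := Nat.choose_mul (n := n) (k := k + l) (s := l) (by omega)
    rw [Nat.add_sub_cancel_left] at h1
    rw [Nat.add_sub_cancel] at h2
    have h3 : (k + l).choose k = (k + l).choose l := by
      rw [Nat.choose_symm_add]
    rw [h3] at h1
    rw [h1] at h2
    calc n.choose k * (l ! * (n - k).choose l) = l ! * (n.choose k * (n - k).choose l) := by ring
      _ = _ := by rw [h2]; ring
  · rw [descFactorial_of_lt (by omega)]
    rcases le_or_gt l n with h' | h'
    · rw [Nat.choose_eq_zero_of_lt (show n - l < k by omega)]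
      simp
    · rw [descFactorial_of_lt h']
      simp

/-- factorial moments of the trinomial distribution -/
theorem trinom_moment (n i l : ℕ) (x y z : ℂ) (hxyz : x + y + z = 1) :
    ∑ k ∈ range (n + 1), ∑ j ∈ range (n - k + 1),
      ((n.choose k * (n - k).choose j : ℕ) : ℂ) * x ^ k * y ^ j * z ^ (n - k - j) *
        ((k.descFactorial i : ℂ) * (j.descFactorial l : ℂ)) =
      (n.descFactorial (i + l) : ℂ) * x ^ i * y ^ l := by
  have h1 : ∀ k ∈ range (n + 1), ∑ j ∈ range (n - k + 1),
      ((n.choose k * (n - k).choose j : ℕ) : ℂ) * x ^ k * y ^ j * z ^ (n - k - j) *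
        ((k.descFactorial i : ℂ) * (j.descFactorial l : ℂ)) =
      (n.descFactorial l : ℂ) * y ^ l *
        (((n - l).choose k : ℂ) * (k.descFactorial i : ℂ) * x ^ k * (y + z) ^ (n - l - k)) := by
    intro k hk
    have hk' : k ≤ n := Nat.lt_succ_iff.1 (mem_range.1 hk)
    have e : ∀ j ∈ range (n - k + 1),
        ((n.choose k * (n - k).choose j : ℕ) : ℂ) * x ^ k * y ^ j * z ^ (n - k - j) *
        ((k.descFactorial i : ℂ) * (j.descFactorial l : ℂ)) =
        (n.choose k : ℂ) * x ^ k * (k.descFactorial i : ℂ) *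
          (((n - k).choose j : ℂ) * (j.descFactorial l : ℂ) * y ^ j * z ^ (n - k - j)) := by
      intro j _
      push_cast
      ring
    rw [sum_congr rfl e, ← mul_sum, binom_moment]
    have h2 := choose_mul_desc' n k l hk'
    have h3 : (n.choose k : ℂ) * ((n - k).descFactorial l : ℂ) =
        (n.descFactorial l : ℂ) * ((n - l).choose k : ℂ) := by exact_mod_cast h2
    rw [show n - k - l = n - l - k by omega]
    calc (n.choose k : ℂ) * x ^ k * (k.descFactorial i : ℂ) *
          (((n - k).descFactorial l : ℂ) * y ^ l * (y + z) ^ (n - l - k))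
        = ((n.choose k : ℂ) * ((n - k).descFactorial l : ℂ)) * (x ^ k * (k.descFactorial i : ℂ) *
          (y ^ l * (y + z) ^ (n - l - k))) := by ring
      _ = _ := by rw [h3]; ring
  rw [sum_congr rfl h1, ← mul_sum]
  rcases le_or_gt l n with h | h
  · obtain ⟨M, rfl⟩ := Nat.exists_eq_add_of_le h
    rw [Nat.add_sub_cancel_left, show l + M + 1 = M + 1 + l by ring, sum_range_add]
    have h4 : ∑ k ∈ range l, ((M.choose (M + 1 + k) : ℂ) * ((M + 1 + k).descFactorial i : ℂ) *
        x ^ (M + 1 + k) * (y + z) ^ (M - (M + 1 + k))) = 0 := by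
      refine sum_eq_zero fun k _ => ?_
      rw [Nat.choose_eq_zero_of_lt (show M < M + 1 + k by omega)]
      simp
    rw [h4, add_zero, binom_moment, show x + (y + z) = 1 by rw [← hxyz]; ring, one_pow, mul_one]
    have h5 : (l + M).descFactorial (i + l) = (l + M).descFactorial l * M.descFactorial i := by
      rw [add_comm i l, ← Nat.descFactorial_mul_descFactorial (Nat.le_add_right l i),
        Nat.add_sub_cancel_left, Nat.add_sub_cancel_left]
      ring
    rw [h5]
    push_cast
    ring
  · rw [descFactorial_of_lt h, descFactorial_of_lt (show n < i + l by omega)]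
    simp

/-- the coefficients of the Bernstein polynomial of a monomial -/
noncomputable def cc (n k j i l : ℕ) : ℝ :=
  (stirlingSecond k i : ℝ) * (stirlingSecond j l : ℝ) * (n.descFactorial (i + l) : ℝ) / (n : ℝ) ^ (k + j)

/-- Bernstein polynomial on the simplex, as a double sum -/
noncomputable def bern (n : ℕ) (f : ℂ → ℂ → ℂ) (w₁ w₂ : ℂ) : ℂ :=
  ∑ k ∈ range (n + 1), ∑ j ∈ range (n - k + 1),
    ((n ! : ℂ) / ((k ! : ℂ) * (j ! : ℂ) * ((n - k - j)! : ℂ))) * w₁ ^ k * w₂ ^ j *
      (1 - w₁ - w₂) ^ (n - k - j) * f ((k : ℂ) / n) ((j : ℂ) / n)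

theorem multinom_eq {n k j : ℕ} (hk : k ≤ n) (hj : j ≤ n - k) :
    (n ! : ℂ) / ((k ! : ℂ) * (j ! : ℂ) * ((n - k - j)! : ℂ)) =
      ((n.choose k * (n - k).choose j : ℕ) : ℂ) := by
  have h1 := Nat.choose_mul_factorial_mul_factorial hk
  have h2 := Nat.choose_mul_factorial_mul_factorial hj
  have h3 : n ! = n.choose k * (n - k).choose j * (k ! * j ! * (n - k - j)!) := by
    rw [← h1, ← h2]
    ring
  have hne : ((k ! : ℂ) * (j ! : ℂ) * ((n - k - j)! : ℂ)) ≠ 0 := by
    have a1 : (k ! : ℂ) ≠ 0 := by exact_mod_cast k.factorial_ne_zero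
    have a2 : (j ! : ℂ) ≠ 0 := by exact_mod_cast j.factorial_ne_zero
    have a3 : ((n - k - j)! : ℂ) ≠ 0 := by exact_mod_cast (n - k - j).factorial_ne_zero
    exact mul_ne_zero (mul_ne_zero a1 a2) a3
  rw [div_eq_iff hne]
  exact_mod_cast h3

theorem bern_monomial (n : ℕ) (hn : 1 ≤ n) (k j : ℕ) (w₁ w₂ : ℂ) :
    bern n (fun x y => x ^ k * y ^ j) w₁ w₂ =
      ∑ i ∈ range (k + 1), ∑ l ∈ range (j + 1), (cc n k j i l : ℂ) * (w₁ ^ i * w₂ ^ l) := by
  have hn0 : (n : ℂ) ≠ 0 := by
    have : n ≠ 0 := by omega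
    exact_mod_cast this
  unfold bern
  have h1 : ∀ p ∈ range (n + 1), ∀ q ∈ range (n - p + 1),
      ((n ! : ℂ) / ((p ! : ℂ) * (q ! : ℂ) * ((n - p - q)! : ℂ))) * w₁ ^ p * w₂ ^ q *
      (1 - w₁ - w₂) ^ (n - p - q) * (((p : ℂ) / n) ^ k * ((q : ℂ) / n) ^ j) =
      ∑ i ∈ range (k + 1), ∑ l ∈ range (j + 1),
        ((stirlingSecond k i : ℂ) * (stirlingSecond j l : ℂ) / (n : ℂ) ^ (k + j)) *
        (((n.choose p * (n - p).choose q : ℕ) : ℂ) * w₁ ^ p * w₂ ^ q * (1 - w₁ - w₂) ^ (n - p - q) *
        ((p.descFactorial i : ℂ) * (q.descFactorial l : ℂ))) := by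
    intro p hp q hq
    have hp' : p ≤ n := Nat.lt_succ_iff.1 (mem_range.1 hp)
    have hq' : q ≤ n - p := Nat.lt_succ_iff.1 (mem_range.1 hq)
    rw [multinom_eq hp' hq']
    have e1 : (p : ℂ) ^ k = ∑ i ∈ range (k + 1), (stirlingSecond k i : ℂ) * (p.descFactorial i : ℂ) := by
      exact_mod_cast pow_eq_sum p k
    have e2 : (q : ℂ) ^ j = ∑ i ∈ range (j + 1), (stirlingSecond j i : ℂ) * (q.descFactorial i : ℂ) := by
      exact_mod_cast pow_eq_sum q j
    rw [div_pow, div_pow, e1, e2, _root_.div_mul_div_comm, ← pow_add, sum_mul_sum, sum_div, mul_sum]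
    refine sum_congr rfl fun i _ => ?_
    rw [sum_div, mul_sum]
    refine sum_congr rfl fun l _ => ?_
    ring
  rw [sum_congr rfl fun p hp => sum_congr rfl fun q hq => h1 p hp q hq]
  -- exchange the sums
  have h2 : ∀ p ∈ range (n + 1), ∑ q ∈ range (n - p + 1), ∑ i ∈ range (k + 1), ∑ l ∈ range (j + 1),
        ((stirlingSecond k i : ℂ) * (stirlingSecond j l : ℂ) / (n : ℂ) ^ (k + j)) *
        (((n.choose p * (n - p).choose q : ℕ) : ℂ) * w₁ ^ p * w₂ ^ q * (1 - w₁ - w₂) ^ (n - p - q) *
        ((p.descFactorial i : ℂ) * (q.descFactorial l : ℂ))) =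
      ∑ i ∈ range (k + 1), ∑ l ∈ range (j + 1), ∑ q ∈ range (n - p + 1),
        ((stirlingSecond k i : ℂ) * (stirlingSecond j l : ℂ) / (n : ℂ) ^ (k + j)) *
        (((n.choose p * (n - p).choose q : ℕ) : ℂ) * w₁ ^ p * w₂ ^ q * (1 - w₁ - w₂) ^ (n - p - q) *
        ((p.descFactorial i : ℂ) * (q.descFactorial l : ℂ))) := by
    intro p _
    rw [sum_comm]
    refine sum_congr rfl fun i _ => ?_
    rw [sum_comm]
  rw [sum_congr rfl h2, sum_comm]
  refine sum_congr rfl fun i _ => ?_
  rw [sum_comm]
  refine sum_congr rfl fun l _ => ?_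
  simp_rw [← mul_sum]
  rw [trinom_moment n i l w₁ w₂ (1 - w₁ - w₂) (by ring)]
  unfold cc
  push_cast
  ring

end Q73.Vor
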