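import Pool.Agent.Q73.Vor.Series

/-!
# The Voronovskaja-type estimate
-/

set_option autoImplicit false

open Finset Filter Topology

namespace Q73.Vor

theorem cast_le_pow (k j : ℕ) {m : ℝ} (hm : m ≤ ((k : ℝ) + j + 1) ^ 2) :
    m ≤ ((k : ℝ) + j + 1) ^ 4 := by
  have h : (1 : ℝ) ≤ ((k : ℝ) + j + 1) ^ 2 := one_le_pow₀ (by
    have := k.cast_nonneg (α := ℝ)
    have := j.cast_nonneg (α := ℝ)
    linarith)
  calc m ≤ ((k : ℝ) + j + 1) ^ 2 * 1 := by linarith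
    _ ≤ ((k : ℝ) + j + 1) ^ 2 * ((k : ℝ) + j + 1) ^ 2 := by gcongr
    _ = _ := by ring

theorem alg1 (k : ℕ) (w : ℂ) :
    (k : ℂ) * ((k - 1 : ℕ) : ℂ) * (w * w ^ (k - 1 - 1)) = (k : ℂ) * (k - 1) * w ^ (k - 1) := by
  rcases k with _ | _ | k
  · simp
  · simp
  · simp only [Nat.add_sub_cancel]
    push_cast
    ring

theorem alg2 (k : ℕ) (w : ℂ) :
    (k : ℂ) * ((k - 1 : ℕ) : ℂ) * (w * w * w ^ (k - 1 - 1)) = (k : ℂ) * (k - 1) * w ^ k := by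
  rcases k with _ | _ | k
  · simp
  · simp
  · simp only [Nat.add_sub_cancel]
    push_cast
    ring

theorem alg3 (k : ℕ) (w : ℂ) : (k : ℂ) * (w * w ^ (k - 1)) = (k : ℂ) * w ^ k := by
  rcases k with _ | k
  · simp
  · simp only [Nat.add_sub_cancel]
    ring

/-- the second order differential expression of a monomial -/
theorem alg_target (n : ℂ) (k j : ℕ) (x y : ℂ) :
    1 * (x ^ k * y ^ j) + 1 / (2 * n) * (x * (1 - x) * (1 * (k : ℂ) * ((k - 1 : ℕ) : ℂ) * (x ^ (k - 1 - 1) * y ^ j)) -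
      2 * x * y * (1 * (j : ℂ) * (k : ℂ) * (x ^ (k - 1) * y ^ (j - 1))) +
      y * (1 - y) * (1 * (j : ℂ) * ((j - 1 : ℕ) : ℂ) * (x ^ k * y ^ (j - 1 - 1)))) =
    (1 - ((k : ℂ) + j) * (k + j - 1) / (2 * n)) * (x ^ k * y ^ j) +
        ((k : ℂ) * (k - 1) / (2 * n)) * (x ^ (k - 1) * y ^ j) +
        ((j : ℂ) * (j - 1) / (2 * n)) * (x ^ k * y ^ (j - 1)) := by
  have a1 := alg1 k x
  have a2 := alg2 k x
  have a3 := alg3 k x
  have b1 := alg1 j y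
  have b2 := alg2 j y
  have b3 := alg3 j y
  have e : (k : ℂ) * (x * x ^ (k - 1)) * ((j : ℂ) * (y * y ^ (j - 1))) = (k : ℂ) * x ^ k * ((j : ℂ) * y ^ j) := by
    rw [a3, b3]
  linear_combination (1 / (2 * n) * y ^ j) * a1 - (1 / (2 * n) * y ^ j) * a2 +
    (1 / (2 * n) * x ^ k) * b1 - (1 / (2 * n) * x ^ k) * b2 - (1 / n) * e

theorem final {R₁ R₂ : ℝ} {f : ℂ → ℂ → ℂ} {a : ℕ × ℕ → ℂ}
    (hf : ∀ w₁ w₂ : ℂ, ‖w₁‖ < R₁ → ‖w₂‖ < R₂ →
      HasSum (fun p : ℕ × ℕ => a p * (w₁ ^ p.1 * w₂ ^ p.2)) (f w₁ w₂))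
    {ρ₁ ρ₂ : ℝ} (h1 : 1 ≤ ρ₁) (h1' : ρ₁ < R₁) (h2 : 1 ≤ ρ₂) (h2' : ρ₂ < R₂) :
    ∃ C : ℝ, ∀ n : ℕ, 1 ≤ n → ∀ w₁ w₂ : ℂ, ‖w₁‖ ≤ ρ₁ → ‖w₂‖ ≤ ρ₂ →
      ‖bern n f w₁ w₂ - f w₁ w₂ - 1 / (2 * (n : ℂ)) *
        (w₁ * (1 - w₁) * deriv (fun s => deriv (fun t => f t w₂) s) w₁ -
          2 * w₁ * w₂ * deriv (fun s => deriv (fun t => f s t) w₂) w₁ +
          w₂ * (1 - w₂) * deriv (fun s => deriv (fun t => f w₁ t) s) w₂)‖ ≤ C / (n : ℝ) ^ 2 := by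
  obtain ⟨r₁, hr1, hr1'⟩ := exists_between h1'
  obtain ⟨s₁, hs1, hs1'⟩ := exists_between hr1'
  obtain ⟨r₂, hr2, hr2'⟩ := exists_between h2'
  obtain ⟨s₂, hs2, hs2'⟩ := exists_between hr2'
  have g1 : 1 ≤ r₁ := h1.trans hr1.le
  have g2 : 1 ≤ r₂ := h2.trans hr2.le
  have hU : Summable (UU a r₁ r₂) := by
    refine summable_of_point (by linarith) (by linarith) hs1 hs2 (hf s₁ s₂ ?_ ?_).summable
    · rw [Complex.norm_real, Real.norm_eq_abs, abs_of_pos (by linarith)]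
      exact hs1'
    · rw [Complex.norm_real, Real.norm_eq_abs, abs_of_pos (by linarith)]
      exact hs2'
  refine ⟨13 * ∑' p, UU a r₁ r₂ p, fun n hn w₁ w₂ hw1 hw2 => ?_⟩
  have hn0 : (0 : ℝ) < n := by exact_mod_cast hn
  -- the series and its derivatives
  have hbase : ∀ x y : ℂ, ‖x‖ < r₁ → ‖y‖ < r₂ → f x y = ∑' p, a p * (1 * (x ^ p.1 * y ^ p.2)) := by
    intro x y hx hy
    rw [← (hf x y (hx.trans hr1') (hy.trans hr2')).tsum_eq]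
    simp only [one_mul]
  have hc1 : ∀ p : ℕ × ℕ, ‖(1 : ℂ)‖ ≤ ((p.1 : ℝ) + p.2 + 1) ^ 4 := fun p => by
    rw [norm_one]
    refine one_le_pow₀ ?_
    have := p.1.cast_nonneg (α := ℝ)
    have := p.2.cast_nonneg (α := ℝ)
    linarith
  have hck : ∀ p : ℕ × ℕ, ‖(1 : ℂ) * (p.1 : ℂ)‖ ≤ ((p.1 : ℝ) + p.2 + 1) ^ 4 := fun p => by
    rw [one_mul, Complex.norm_natCast]
    refine cast_le_pow _ _ ?_
    have := p.1.cast_nonneg (α := ℝ)
    have := p.2.cast_nonneg (α := ℝ)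
    nlinarith
  have hcj : ∀ p : ℕ × ℕ, ‖(1 : ℂ) * (p.2 : ℂ)‖ ≤ ((p.1 : ℝ) + p.2 + 1) ^ 4 := fun p => by
    rw [one_mul, Complex.norm_natCast]
    refine cast_le_pow _ _ ?_
    have := p.1.cast_nonneg (α := ℝ)
    have := p.2.cast_nonneg (α := ℝ)
    nlinarith
  have hckk : ∀ p : ℕ × ℕ, ‖(1 : ℂ) * (p.1 : ℂ) * ((p.1 - 1 : ℕ) : ℂ)‖ ≤ ((p.1 : ℝ) + p.2 + 1) ^ 4 :=
    fun p => by
      rw [one_mul, norm_mul, Complex.norm_natCast, Complex.norm_natCast]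
      refine cast_le_pow _ _ ?_
      have u1 := p.1.cast_nonneg (α := ℝ)
      have u2 := p.2.cast_nonneg (α := ℝ)
      have u3 : ((p.1 - 1 : ℕ) : ℝ) ≤ p.1 := by exact_mod_cast Nat.sub_le _ _
      nlinarith [mul_le_mul_of_nonneg_left u3 u1]
  have hcjj : ∀ p : ℕ × ℕ, ‖(1 : ℂ) * (p.2 : ℂ) * ((p.2 - 1 : ℕ) : ℂ)‖ ≤ ((p.1 : ℝ) + p.2 + 1) ^ 4 :=
    fun p => by
      rw [one_mul, norm_mul, Complex.norm_natCast, Complex.norm_natCast]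
      refine cast_le_pow _ _ ?_
      have u1 := p.1.cast_nonneg (α := ℝ)
      have u2 := p.2.cast_nonneg (α := ℝ)
      have u3 : ((p.2 - 1 : ℕ) : ℝ) ≤ p.2 := by exact_mod_cast Nat.sub_le _ _
      nlinarith [mul_le_mul_of_nonneg_left u3 u2]
  have hcjk : ∀ p : ℕ × ℕ, ‖(1 : ℂ) * (p.2 : ℂ) * (p.1 : ℂ)‖ ≤ ((p.1 : ℝ) + p.2 + 1) ^ 4 :=
    fun p => by
      rw [one_mul, norm_mul, Complex.norm_natCast, Complex.norm_natCast]
      refine cast_le_pow _ _ ?_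
      have u1 := p.1.cast_nonneg (α := ℝ)
      have u2 := p.2.cast_nonneg (α := ℝ)
      nlinarith [mul_nonneg u1 u2]
  have d1 : ∀ x y : ℂ, ‖x‖ < r₁ → ‖y‖ < r₂ → deriv (fun t => f t y) x =
      ∑' p, a p * (1 * (p.1 : ℂ) * (x ^ (p.1 - 1) * y ^ p.2)) := by
    intro x y hx hy
    have h := deriv_x (c := fun _ => 1) (i := fun p => p.1) (j := fun p => p.2) g1 g2 hU
      (fun _ => le_rfl) (fun _ => le_rfl) hc1 hck hx hy
    rw [← h.deriv]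
    refine Filter.EventuallyEq.deriv_eq ?_
    filter_upwards [(continuous_norm.tendsto x).eventually (gt_mem_nhds hx)] with z hz
    exact hbase z y hz hy
  have d2 : ∀ x y : ℂ, ‖x‖ < r₁ → ‖y‖ < r₂ → deriv (fun t => f x t) y =
      ∑' p, a p * (1 * (p.2 : ℂ) * (x ^ p.1 * y ^ (p.2 - 1))) := by
    intro x y hx hy
    have h := deriv_y (c := fun _ => 1) (i := fun p => p.1) (j := fun p => p.2) g1 g2 hU
      (fun _ => le_rfl) (fun _ => le_rfl) hc1 hcj hx hy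
    rw [← h.deriv]
    refine Filter.EventuallyEq.deriv_eq ?_
    filter_upwards [(continuous_norm.tendsto y).eventually (gt_mem_nhds hy)] with z hz
    exact hbase x z hx hz
  have hw1' : ‖w₁‖ < r₁ := lt_of_le_of_lt hw1 hr1
  have hw2' : ‖w₂‖ < r₂ := lt_of_le_of_lt hw2 hr2
  have d11 : deriv (fun s => deriv (fun t => f t w₂) s) w₁ =
      ∑' p, a p * (1 * (p.1 : ℂ) * ((p.1 - 1 : ℕ) : ℂ) * (w₁ ^ (p.1 - 1 - 1) * w₂ ^ p.2)) := by
    have h := deriv_x (c := fun p => 1 * (p.1 : ℂ)) (i := fun p => p.1 - 1) (j := fun p => p.2) g1 g2 hU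
      (fun p => Nat.sub_le _ _) (fun _ => le_rfl) hck hckk hw1' hw2'
    rw [← h.deriv]
    refine Filter.EventuallyEq.deriv_eq ?_
    filter_upwards [(continuous_norm.tendsto w₁).eventually (gt_mem_nhds hw1')] with z hz
    exact d1 z w₂ hz hw2'
  have d12 : deriv (fun s => deriv (fun t => f s t) w₂) w₁ =
      ∑' p, a p * (1 * (p.2 : ℂ) * (p.1 : ℂ) * (w₁ ^ (p.1 - 1) * w₂ ^ (p.2 - 1))) := by
    have h := deriv_x (c := fun p => 1 * (p.2 : ℂ)) (i := fun p => p.1) (j := fun p => p.2 - 1) g1 g2 hU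
      (fun _ => le_rfl) (fun p => Nat.sub_le _ _) hcj hcjk hw1' hw2'
    rw [← h.deriv]
    refine Filter.EventuallyEq.deriv_eq ?_
    filter_upwards [(continuous_norm.tendsto w₁).eventually (gt_mem_nhds hw1')] with z hz
    exact d2 z w₂ hz hw2'
  have d22 : deriv (fun s => deriv (fun t => f w₁ t) s) w₂ =
      ∑' p, a p * (1 * (p.2 : ℂ) * ((p.2 - 1 : ℕ) : ℂ) * (w₁ ^ p.1 * w₂ ^ (p.2 - 1 - 1))) := by
    have h := deriv_y (c := fun p => 1 * (p.2 : ℂ)) (i := fun p => p.1) (j := fun p => p.2 - 1) g1 g2 hU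
      (fun _ => le_rfl) (fun p => Nat.sub_le _ _) hcj hcjj hw1' hw2'
    rw [← h.deriv]
    refine Filter.EventuallyEq.deriv_eq ?_
    filter_upwards [(continuous_norm.tendsto w₂).eventually (gt_mem_nhds hw2')] with z hz
    exact d2 w₁ z hw1' hz
  -- summability of the differentiated series
  have s0 : HasSum (fun p : ℕ × ℕ => a p * (1 * (w₁ ^ p.1 * w₂ ^ p.2))) (f w₁ w₂) := by
    simpa using hf w₁ w₂ (hw1'.trans hr1') (hw2'.trans hr2')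
  have s11 : HasSum (fun p : ℕ × ℕ => a p * (1 * (p.1 : ℂ) * ((p.1 - 1 : ℕ) : ℂ) *
      (w₁ ^ (p.1 - 1 - 1) * w₂ ^ p.2))) (deriv (fun s => deriv (fun t => f t w₂) s) w₁) := by
    rw [d11]
    refine (Summable.of_norm_bounded hU fun p => ?_).hasSum
    exact term_le g1 g2 p (hckk p) hw1'.le hw2'.le ((Nat.sub_le _ _).trans (Nat.sub_le _ _)) le_rfl le_rfl
  have s12 : HasSum (fun p : ℕ × ℕ => a p * (1 * (p.2 : ℂ) * (p.1 : ℂ) *
      (w₁ ^ (p.1 - 1) * w₂ ^ (p.2 - 1)))) (deriv (fun s => deriv (fun t => f s t) w₂) w₁) := by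
    rw [d12]
    refine (Summable.of_norm_bounded hU fun p => ?_).hasSum
    exact term_le g1 g2 p (hcjk p) hw1'.le hw2'.le (Nat.sub_le _ _) (Nat.sub_le _ _) le_rfl
  have s22 : HasSum (fun p : ℕ × ℕ => a p * (1 * (p.2 : ℂ) * ((p.2 - 1 : ℕ) : ℂ) *
      (w₁ ^ p.1 * w₂ ^ (p.2 - 1 - 1)))) (deriv (fun s => deriv (fun t => f w₁ t) s) w₂) := by
    rw [d22]
    refine (Summable.of_norm_bounded hU fun p => ?_).hasSum
    exact term_le g1 g2 p (hcjj p) hw1'.le hw2'.le le_rfl ((Nat.sub_le _ _).trans (Nat.sub_le _ _)) le_rfl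
  -- the Bernstein polynomial
  have sB : HasSum (fun p : ℕ × ℕ => a p * bern n (fun x y => x ^ p.1 * y ^ p.2) w₁ w₂)
      (bern n f w₁ w₂) := by
    have e : (fun p : ℕ × ℕ => a p * bern n (fun x y => x ^ p.1 * y ^ p.2) w₁ w₂) = fun p =>
        ∑ k ∈ range (n + 1), ∑ j ∈ range (n - k + 1),
        (((n.factorial : ℂ) / ((k.factorial : ℂ) * (j.factorial : ℂ) * ((n - k - j).factorial : ℂ))) *
          w₁ ^ k * w₂ ^ j * (1 - w₁ - w₂) ^ (n - k - j)) *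
          (a p * (((k : ℂ) / n) ^ p.1 * ((j : ℂ) / n) ^ p.2)) := by
      funext p
      unfold bern
      rw [mul_sum]
      refine sum_congr rfl fun k _ => ?_
      rw [mul_sum]
      refine sum_congr rfl fun j _ => ?_
      ring
    rw [e]
    unfold bern
    refine hasSum_sum fun k hk => hasSum_sum fun j hj => HasSum.mul_left _ ?_
    have hk' : k ≤ n := Nat.lt_succ_iff.1 (mem_range.1 hk)
    have hj' : j ≤ n := (Nat.lt_succ_iff.1 (mem_range.1 hj)).trans (Nat.sub_le _ _)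
    refine hf _ _ ?_ ?_
    · rw [norm_div, Complex.norm_natCast, Complex.norm_natCast]
      refine lt_of_le_of_lt ?_ (lt_of_le_of_lt h1 h1')
      rw [div_le_one hn0]
      exact_mod_cast hk'
    · rw [norm_div, Complex.norm_natCast, Complex.norm_natCast]
      refine lt_of_le_of_lt ?_ (lt_of_le_of_lt h2 h2')
      rw [div_le_one hn0]
      exact_mod_cast hj'
  -- the remainder as a series
  have hE := (sB.sub s0).sub ((((s11.mul_left (w₁ * (1 - w₁))).sub (s12.mul_left (2 * w₁ * w₂))).add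
    (s22.mul_left (w₂ * (1 - w₂)))).mul_left (1 / (2 * (n : ℂ))))
  have hG : HasSum (fun p => 13 / (n : ℝ) ^ 2 * UU a r₁ r₂ p)
      (13 * (∑' p, UU a r₁ r₂ p) / (n : ℝ) ^ 2) := by
    have h := hU.hasSum.mul_left (13 / (n : ℝ) ^ 2)
    rwa [div_mul_eq_mul_div] at h
  refine hE.norm_le_of_bounded hG fun p => ?_
  · have hm := mono_est hn p.1 p.2 h1 h2 hw1 hw2
    have ht := alg_target n p.1 p.2 w₁ w₂
    rw [← ht] at hm
    have e : a p * bern n (fun x y => x ^ p.1 * y ^ p.2) w₁ w₂ - a p * (1 * (w₁ ^ p.1 * w₂ ^ p.2)) -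
        1 / (2 * (n : ℂ)) * (w₁ * (1 - w₁) * (a p * (1 * (p.1 : ℂ) * ((p.1 - 1 : ℕ) : ℂ) *
            (w₁ ^ (p.1 - 1 - 1) * w₂ ^ p.2))) -
          2 * w₁ * w₂ * (a p * (1 * (p.2 : ℂ) * (p.1 : ℂ) * (w₁ ^ (p.1 - 1) * w₂ ^ (p.2 - 1)))) +
          w₂ * (1 - w₂) * (a p * (1 * (p.2 : ℂ) * ((p.2 - 1 : ℕ) : ℂ) *
            (w₁ ^ p.1 * w₂ ^ (p.2 - 1 - 1))))) =
        a p * (bern n (fun x y => x ^ p.1 * y ^ p.2) w₁ w₂ -
        (1 * (w₁ ^ p.1 * w₂ ^ p.2) + 1 / (2 * (n : ℂ)) * (w₁ * (1 - w₁) *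
          (1 * (p.1 : ℂ) * ((p.1 - 1 : ℕ) : ℂ) * (w₁ ^ (p.1 - 1 - 1) * w₂ ^ p.2)) -
      2 * w₁ * w₂ * (1 * (p.2 : ℂ) * (p.1 : ℂ) * (w₁ ^ (p.1 - 1) * w₂ ^ (p.2 - 1))) +
      w₂ * (1 - w₂) * (1 * (p.2 : ℂ) * ((p.2 - 1 : ℕ) : ℂ) * (w₁ ^ p.1 * w₂ ^ (p.2 - 1 - 1)))))) := by
      ring
    rw [e, norm_mul]
    have hk := p.1.cast_nonneg (α := ℝ)
    have hj := p.2.cast_nonneg (α := ℝ)
    calc ‖a p‖ * _ ≤ ‖a p‖ * (13 * ((p.1 : ℝ) + p.2) ^ 4 / n ^ 2 * (ρ₁ ^ p.1 * ρ₂ ^ p.2)) :=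
          mul_le_mul_of_nonneg_left hm (norm_nonneg _)
      _ ≤ ‖a p‖ * (13 * ((p.1 : ℝ) + p.2 + 1) ^ 4 / n ^ 2 * (r₁ ^ p.1 * r₂ ^ p.2)) := by
          have q1 : ((p.1 : ℝ) + p.2) ^ 4 ≤ ((p.1 : ℝ) + p.2 + 1) ^ 4 :=
            pow_le_pow_left₀ (by linarith) (by linarith) 4
          have q2 : ρ₁ ^ p.1 ≤ r₁ ^ p.1 := pow_le_pow_left₀ (by linarith) hr1.le _
          have q3 : ρ₂ ^ p.2 ≤ r₂ ^ p.2 := pow_le_pow_left₀ (by linarith) hr2.le _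
          refine mul_le_mul_of_nonneg_left ?_ (norm_nonneg _)
          refine mul_le_mul ?_ (mul_le_mul q2 q3 (by positivity) (by positivity)) (by positivity)
            (by positivity)
          exact div_le_div_of_nonneg_right (mul_le_mul_of_nonneg_left q1 (by norm_num)) (by positivity)
      _ = 13 / (n : ℝ) ^ 2 * UU a r₁ r₂ p := by
          unfold UU
          ring

end Q73.Vor
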