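import Pool.Agent.Q73.Vor.Coef

/-!
# The estimate for monomials
-/

set_option autoImplicit false

open Finset Nat

namespace Q73.Vor

theorem split_sum (g : ℕ → ℂ) (k : ℕ) :
    ∑ i ∈ range (k + 1), g i = ∑ i ∈ range (k - 1), g i + (if 1 ≤ k then g (k - 1) else 0) + g k := by
  rcases k with _ | k
  · simp
  · rw [sum_range_succ, sum_range_succ, if_pos (by omega)]
    simp

theorem norm_pow_le {w : ℂ} {ρ : ℝ} (h1 : 1 ≤ ρ) (hw : ‖w‖ ≤ ρ) {i k : ℕ} (hik : i ≤ k) :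
    ‖w ^ i‖ ≤ ρ ^ k := by
  rw [norm_pow]
  calc ‖w‖ ^ i ≤ ρ ^ i := pow_le_pow_left₀ (norm_nonneg _) hw i
    _ ≤ ρ ^ k := pow_le_pow_right₀ h1 hik

/-- the term with `i = k - 1` -/
theorem term_pred {n : ℕ} (hn : 1 ≤ n) (k j : ℕ) {x : ℂ} {M : ℝ} (hM : ‖x‖ ≤ M) :
    ‖(if 1 ≤ k then (cc n k j (k - 1) j : ℂ) * x else 0) -
      ((k : ℂ) * (k - 1) / (2 * n)) * x‖ ≤ (k + j : ℝ) ^ 4 / n ^ 2 * M := by
  have hn0 : (0 : ℝ) < n := by exact_mod_cast hn
  have hM0 : 0 ≤ M := (norm_nonneg x).trans hM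
  rcases k with _ | k
  · simp only [nonpos_iff_eq_zero, one_ne_zero, if_false, Nat.cast_zero, zero_mul, zero_div, sub_zero,
      norm_zero]
    positivity
  · rw [if_pos (by omega), Nat.add_sub_cancel, cc_pred_left hn]
    have e : ((((k : ℝ) + 1) * k / (2 * n) * uu n (k + j) : ℝ) : ℂ) * x -
        (((k + 1 : ℕ) : ℂ) * (((k + 1 : ℕ) : ℂ) - 1) / (2 * n)) * x =
        (((((k : ℝ) + 1) * k / (2 * n) * (uu n (k + j) - 1)) : ℝ) : ℂ) * x := by
      push_cast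
      ring
    rw [e, norm_mul, Complex.norm_real, Real.norm_eq_abs]
    refine mul_le_mul ?_ hM (norm_nonneg _) (by positivity)
    have h1 := uu_bound1 hn (k + j)
    have h2 := uu_le_one hn (k + j)
    rw [abs_mul, abs_of_nonneg (by positivity : (0:ℝ) ≤ ((k : ℝ) + 1) * k / (2 * n)), abs_sub_comm,
      abs_of_nonneg (by linarith)]
    have hk : (0 : ℝ) ≤ k := k.cast_nonneg
    have hj : (0 : ℝ) ≤ j := j.cast_nonneg
    calc ((k : ℝ) + 1) * k / (2 * n) * (1 - uu n (k + j))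
        ≤ ((k : ℝ) + 1) * k / (2 * n) * (((k + j : ℕ) : ℝ) ^ 2 / n) :=
          mul_le_mul_of_nonneg_left h1 (by positivity)
      _ = ((k : ℝ) + 1) * k * ((k : ℝ) + j) ^ 2 / (2 * n ^ 2) := by
          push_cast
          field_simp
      _ ≤ (((k + 1 : ℕ) : ℝ) + j) ^ 4 / n ^ 2 := by
          rw [div_le_div_iff₀ (by positivity) (by positivity)]
          push_cast
          have h3 : ((k : ℝ) + 1) * k ≤ ((k : ℝ) + 1 + j) ^ 2 := by nlinarith
          have h4 : ((k : ℝ) + j) ^ 2 ≤ ((k : ℝ) + 1 + j) ^ 2 := by nlinarith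
          have h5 : ((k : ℝ) + 1) * k * ((k : ℝ) + j) ^ 2 ≤ ((k : ℝ) + 1 + j) ^ 4 := by
            calc ((k : ℝ) + 1) * k * ((k : ℝ) + j) ^ 2
                ≤ ((k : ℝ) + 1 + j) ^ 2 * ((k : ℝ) + 1 + j) ^ 2 :=
                  mul_le_mul h3 h4 (by positivity) (by positivity)
              _ = _ := by ring
          have h6 : 0 ≤ ((k : ℝ) + 1 + j) ^ 4 * n ^ 2 := by positivity
          have h7 := mul_le_mul_of_nonneg_right h5 (sq_nonneg (n : ℝ))
          nlinarith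

theorem term_top {n : ℕ} (hn : 1 ≤ n) (k j : ℕ) {x : ℂ} {M : ℝ} (hM : ‖x‖ ≤ M) :
    ‖(cc n k j k j : ℂ) * x - (1 - ((k : ℂ) + j) * (k + j - 1) / (2 * n)) * x‖ ≤
      (k + j : ℝ) ^ 4 / n ^ 2 * M := by
  rw [cc_top]
  have e : (uu n (k + j) : ℂ) * x - (1 - ((k : ℂ) + j) * (k + j - 1) / (2 * n)) * x =
      ((uu n (k + j) - (1 - ((k + j : ℕ) : ℝ) * (((k + j : ℕ) : ℝ) - 1) / (2 * n)) : ℝ) : ℂ) * x := by
    push_cast
    ring
  rw [e, norm_mul, Complex.norm_real, Real.norm_eq_abs]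
  have h := uu_bound2 hn (k + j)
  refine mul_le_mul ?_ hM (norm_nonneg _) (by positivity)
  push_cast at h ⊢
  exact h

/-- sum over the small `i` -/
theorem sum_small {n : ℕ} (hn : 1 ≤ n) (k j : ℕ) {l₀ : Finset ℕ} (hl₀ : l₀ ⊆ range (j + 1))
    {x : ℕ → ℕ → ℂ} {M : ℝ} (hM0 : 0 ≤ M)
    (hM : ∀ i l, i ≤ k → l ≤ j → ‖x i l‖ ≤ M) :
    ‖∑ i ∈ range (k - 1), ∑ l ∈ l₀, (cc n k j i l : ℂ) * x i l‖ ≤ 3 * (k + j : ℝ) ^ 4 / n ^ 2 * M := by
  have hn0 : (0 : ℝ) < n := by exact_mod_cast hn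
  have hk : (0 : ℝ) ≤ k := k.cast_nonneg
  have hj : (0 : ℝ) ≤ j := j.cast_nonneg
  calc ‖∑ i ∈ range (k - 1), ∑ l ∈ l₀, (cc n k j i l : ℂ) * x i l‖
      ≤ ∑ i ∈ range (k - 1), ∑ l ∈ l₀, ‖(cc n k j i l : ℂ) * x i l‖ :=
        (norm_sum_le _ _).trans (sum_le_sum fun i _ => norm_sum_le _ _)
    _ ≤ ∑ i ∈ range (k - 1), ∑ l ∈ l₀, PP n k i * PP n j l * M := by
        refine sum_le_sum fun i hi => sum_le_sum fun l hl => ?_
        have hi' := mem_range.1 hi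
        have hl' := mem_range.1 (hl₀ hl)
        rw [norm_mul, Complex.norm_real, Real.norm_eq_abs, abs_of_nonneg (cc_nonneg _ _ _ _ _)]
        exact mul_le_mul (cc_le _ _ _ _ _) (hM i l (by omega) (by omega)) (norm_nonneg _)
          (mul_nonneg (PP_nonneg _ _ _) (PP_nonneg _ _ _))
    _ = (∑ i ∈ range (k - 1), PP n k i) * (∑ l ∈ l₀, PP n j l) * M := by
        rw [sum_mul_sum, sum_mul]
        simp_rw [sum_mul]
    _ ≤ (3 * (k : ℝ) ^ 4 / n ^ 2) * 1 * M := by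
        refine mul_le_mul_of_nonneg_right ?_ hM0
        refine mul_le_mul (PP_tail hn k) ?_ (sum_nonneg fun _ _ => PP_nonneg _ _ _) (by positivity)
        rw [← PP_sum hn j]
        exact sum_le_sum_of_subset_of_nonneg hl₀ fun _ _ _ => PP_nonneg _ _ _
    _ ≤ 3 * (k + j : ℝ) ^ 4 / n ^ 2 * M := by
        rw [mul_one]
        refine mul_le_mul_of_nonneg_right ?_ hM0
        refine div_le_div_of_nonneg_right ?_ (by positivity)
        refine mul_le_mul_of_nonneg_left ?_ (by norm_num)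
        gcongr
        linarith

theorem term_both {n : ℕ} (hn : 1 ≤ n) (k j : ℕ) {x : ℂ} {M : ℝ} (hM : ‖x‖ ≤ M) :
    ‖(if 1 ≤ k then (if 1 ≤ j then (cc n k j (k - 1) (j - 1) : ℂ) * x else 0) else 0)‖ ≤
      (k + j : ℝ) ^ 4 / n ^ 2 * M := by
  have hn0 : (0 : ℝ) < n := by exact_mod_cast hn
  have hM0 : 0 ≤ M := (norm_nonneg x).trans hM
  rcases k with _ | k
  · simp only [nonpos_iff_eq_zero, one_ne_zero, if_false, norm_zero]
    positivity
  · rcases j with _ | j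
    · simp only [nonpos_iff_eq_zero, one_ne_zero, if_false, ite_self, norm_zero]
      positivity
    · rw [if_pos (by omega), if_pos (by omega), Nat.add_sub_cancel, Nat.add_sub_cancel, norm_mul,
        Complex.norm_real, Real.norm_eq_abs, abs_of_nonneg (cc_nonneg _ _ _ _ _)]
      refine mul_le_mul ?_ hM (norm_nonneg _) (by positivity)
      have h1 := PP_pred_le hn k
      have h2 := PP_pred_le hn j
      have hk : (0 : ℝ) ≤ k := k.cast_nonneg
      have hj : (0 : ℝ) ≤ j := j.cast_nonneg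
      calc cc n (k + 1) (j + 1) k j ≤ PP n (k + 1) k * PP n (j + 1) j := cc_le _ _ _ _ _
        _ ≤ (((k : ℝ) + 1) ^ 2 / n) * (((j : ℝ) + 1) ^ 2 / n) :=
            mul_le_mul h1 h2 (PP_nonneg _ _ _) (by positivity)
        _ = (((k : ℝ) + 1) ^ 2 * ((j : ℝ) + 1) ^ 2) / n ^ 2 := by
            field_simp
        _ ≤ (((k + 1 : ℕ) : ℝ) + ((j + 1 : ℕ) : ℝ)) ^ 4 / n ^ 2 := by
            refine div_le_div_of_nonneg_right ?_ (by positivity)
            push_cast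
            calc ((k : ℝ) + 1) ^ 2 * ((j : ℝ) + 1) ^ 2
                ≤ ((k : ℝ) + 1 + (j + 1)) ^ 2 * ((k : ℝ) + 1 + (j + 1)) ^ 2 :=
                  mul_le_mul (pow_le_pow_left₀ (by linarith) (by linarith) 2)
                    (pow_le_pow_left₀ (by linarith) (by linarith) 2) (by positivity) (by positivity)
              _ = _ := by ring

/-- **the estimate for monomials** -/
theorem mono_est {n : ℕ} (hn : 1 ≤ n) (k j : ℕ) {w₁ w₂ : ℂ} {ρ₁ ρ₂ : ℝ} (h1 : 1 ≤ ρ₁) (h2 : 1 ≤ ρ₂)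
    (hw1 : ‖w₁‖ ≤ ρ₁) (hw2 : ‖w₂‖ ≤ ρ₂) :
    ‖bern n (fun x y => x ^ k * y ^ j) w₁ w₂ -
      ((1 - ((k : ℂ) + j) * (k + j - 1) / (2 * n)) * (w₁ ^ k * w₂ ^ j) +
        ((k : ℂ) * (k - 1) / (2 * n)) * (w₁ ^ (k - 1) * w₂ ^ j) +
        ((j : ℂ) * (j - 1) / (2 * n)) * (w₁ ^ k * w₂ ^ (j - 1)))‖ ≤
      13 * (k + j : ℝ) ^ 4 / n ^ 2 * (ρ₁ ^ k * ρ₂ ^ j) := by
  have hn0 : (0 : ℝ) < n := by exact_mod_cast hn
  rw [bern_monomial n hn]
  set M := ρ₁ ^ k * ρ₂ ^ j with hM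
  have hM0 : 0 ≤ M := by positivity
  set x : ℕ → ℕ → ℂ := fun i l => w₁ ^ i * w₂ ^ l with hx
  have hxM : ∀ i l, i ≤ k → l ≤ j → ‖x i l‖ ≤ M := by
    intro i l hi hl
    rw [hx]
    simp only
    rw [norm_mul]
    exact mul_le_mul (norm_pow_le h1 hw1 hi) (norm_pow_le h2 hw2 hl) (norm_nonneg _) (by positivity)
  change ‖∑ i ∈ range (k + 1), ∑ l ∈ range (j + 1), (cc n k j i l : ℂ) * x i l -
    ((1 - ((k : ℂ) + j) * (k + j - 1) / (2 * n)) * x k j +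
        ((k : ℂ) * (k - 1) / (2 * n)) * x (k - 1) j + ((j : ℂ) * (j - 1) / (2 * n)) * x k (j - 1))‖ ≤ _
  have hA := sum_small hn k j (subset_refl (range (j + 1))) hM0 hxM
  -- the row `i = k - 1`
  have hB1 : ‖(if 1 ≤ k then ∑ l ∈ range (j - 1), (cc n k j (k - 1) l : ℂ) * x (k - 1) l else 0)‖ ≤
      3 * (k + j : ℝ) ^ 4 / n ^ 2 * M := by
    split_ifs with hk
    · have h := sum_small hn j k (l₀ := {k - 1}) (by
        rw [singleton_subset_iff, mem_range]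
        omega) (x := fun l i => x i l) hM0 (fun l i hl hi => hxM i l hi hl)
      simp only [sum_singleton, cc_symm n j k] at h
      rwa [add_comm (j : ℝ) k] at h
    · rw [norm_zero]
      positivity
  have hB2 := term_both hn k j (x := x (k - 1) (j - 1)) (hxM _ _ (by omega) (by omega))
  have hB3 := term_pred hn k j (x := x (k - 1) j) (hxM _ _ (by omega) le_rfl)
  -- the row `i = k`
  have hC1 : ‖∑ l ∈ range (j - 1), (cc n k j k l : ℂ) * x k l‖ ≤ 3 * (k + j : ℝ) ^ 4 / n ^ 2 * M := by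
    have h := sum_small hn j k (l₀ := {k}) (by
      rw [singleton_subset_iff, mem_range]
      omega) (x := fun l i => x i l) hM0 (fun l i hl hi => hxM i l hi hl)
    simp only [sum_singleton, cc_symm n j k] at h
    rwa [add_comm (j : ℝ) k] at h
  have hC2 := term_pred hn j k (x := x k (j - 1)) (hxM _ _ le_rfl (by omega))
  simp only [cc_symm n j k] at hC2
  rw [add_comm (j : ℝ) k] at hC2
  have hC3 := term_top hn k j (x := x k j) (hxM _ _ le_rfl le_rfl)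
  -- decomposition
  have hrow : ∀ i, ∑ l ∈ range (j + 1), (cc n k j i l : ℂ) * x i l =
      ∑ l ∈ range (j - 1), (cc n k j i l : ℂ) * x i l +
        (if 1 ≤ j then (cc n k j i (j - 1) : ℂ) * x i (j - 1) else 0) + (cc n k j i j : ℂ) * x i j :=
    fun i => split_sum (fun l => (cc n k j i l : ℂ) * x i l) j
  have hk1 : (if 1 ≤ k then ∑ l ∈ range (j + 1), (cc n k j (k - 1) l : ℂ) * x (k - 1) l else 0) =
      (if 1 ≤ k then ∑ l ∈ range (j - 1), (cc n k j (k - 1) l : ℂ) * x (k - 1) l else 0) +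
      (if 1 ≤ k then (if 1 ≤ j then (cc n k j (k - 1) (j - 1) : ℂ) * x (k - 1) (j - 1) else 0) else 0) +
      (if 1 ≤ k then (cc n k j (k - 1) j : ℂ) * x (k - 1) j else 0) := by
    by_cases hk : 1 ≤ k
    · simp only [if_pos hk]
      exact hrow (k - 1)
    · simp only [if_neg hk, add_zero]
  rw [split_sum (fun i => ∑ l ∈ range (j + 1), (cc n k j i l : ℂ) * x i l) k, hk1, hrow k]
  set A := ∑ i ∈ range (k - 1), ∑ l ∈ range (j + 1), (cc n k j i l : ℂ) * x i l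
  set B1 := (if 1 ≤ k then ∑ l ∈ range (j - 1), (cc n k j (k - 1) l : ℂ) * x (k - 1) l else 0)
  set B2 := (if 1 ≤ k then (if 1 ≤ j then (cc n k j (k - 1) (j - 1) : ℂ) * x (k - 1) (j - 1) else 0) else 0)
  set B3 := (if 1 ≤ k then (cc n k j (k - 1) j : ℂ) * x (k - 1) j else 0)
  set C1 := ∑ l ∈ range (j - 1), (cc n k j k l : ℂ) * x k l
  set C2 := (if 1 ≤ j then (cc n k j k (j - 1) : ℂ) * x k (j - 1) else 0)
  set C3 := (cc n k j k j : ℂ) * x k j
  set t1 := (1 - ((k : ℂ) + j) * (k + j - 1) / (2 * n)) * x k j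
  set t2 := ((k : ℂ) * (k - 1) / (2 * n)) * x (k - 1) j
  set t3 := ((j : ℂ) * (j - 1) / (2 * n)) * x k (j - 1)
  have e : A + (B1 + B2 + B3) + (C1 + C2 + C3) - (t1 + t2 + t3) =
      A + B1 + B2 + (B3 - t2) + C1 + (C2 - t3) + (C3 - t1) := by ring
  rw [e]
  have hs : ∀ a b : ℂ, ∀ s t : ℝ, ‖a‖ ≤ s → ‖b‖ ≤ t → ‖a + b‖ ≤ s + t :=
    fun a b s t h h' => (norm_add_le _ _).trans (add_le_add h h')
  refine (hs _ _ _ _ (hs _ _ _ _ (hs _ _ _ _ (hs _ _ _ _ (hs _ _ _ _ (hs _ _ _ _ hA hB1) hB2) hB3)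
    hC1) hC2) hC3).trans (le_of_eq ?_)
  ring

end Q73.Vor
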