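import Pool.Agent.Q73.Vor.Mono

/-!
# Double power series
-/

set_option autoImplicit false

open Finset Filter Topology

namespace Q73.Vor

theorem exists_bound (q : ℝ) (h0 : 0 < q) (h1 : q < 1) :
    ∃ C : ℝ, 0 ≤ C ∧ ∀ m : ℕ, ((m : ℝ) + 1) ^ 4 * q ^ m ≤ C := by
  have ht := tendsto_pow_const_mul_const_pow_of_lt_one 4 h0.le h1
  obtain ⟨B, hB⟩ := ht.bddAbove_range
  have hB' : ∀ m : ℕ, (m : ℝ) ^ 4 * q ^ m ≤ B := fun m => hB ⟨m, rfl⟩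
  have hB0 : 0 ≤ B := by simpa using hB' 0
  refine ⟨B / q, by positivity, fun m => ?_⟩
  rw [le_div_iff₀ h0]
  have := hB' (m + 1)
  push_cast at this
  rw [pow_succ q m] at this
  linarith

theorem summable_of_point {a : ℕ × ℕ → ℂ} {s₁ s₂ r₁ r₂ : ℝ} (h1 : 0 < r₁) (h2 : 0 < r₂)
    (h1' : r₁ < s₁) (h2' : r₂ < s₂)
    (hs : Summable fun p : ℕ × ℕ => a p * ((s₁ : ℂ) ^ p.1 * (s₂ : ℂ) ^ p.2)) :
    Summable fun p : ℕ × ℕ => ‖a p‖ * ((p.1 : ℝ) + p.2 + 1) ^ 4 * (r₁ ^ p.1 * r₂ ^ p.2) := by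
  have hs1 : 0 < s₁ := h1.trans h1'
  have hs2 : 0 < s₂ := h2.trans h2'
  set q := max (r₁ / s₁) (r₂ / s₂) with hq
  have hq0 : 0 < q := lt_max_of_lt_left (by positivity)
  have hq1 : q < 1 := max_lt ((div_lt_one hs1).2 h1') ((div_lt_one hs2).2 h2')
  obtain ⟨C, hC0, hC⟩ := exists_bound q hq0 hq1
  have hn := hs.norm
  refine (hn.mul_left C).of_nonneg_of_le (fun p => by positivity) fun p => ?_
  rw [norm_mul, norm_mul, norm_pow, norm_pow, Complex.norm_real, Complex.norm_real,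
    Real.norm_eq_abs, Real.norm_eq_abs, abs_of_pos hs1, abs_of_pos hs2]
  have e1 : r₁ ^ p.1 ≤ q ^ p.1 * s₁ ^ p.1 := by
    rw [← mul_pow]
    refine pow_le_pow_left₀ h1.le ?_ _
    have := le_max_left (r₁ / s₁) (r₂ / s₂)
    rw [← hq] at this
    calc r₁ = r₁ / s₁ * s₁ := by field_simp
      _ ≤ q * s₁ := mul_le_mul_of_nonneg_right this hs1.le
  have e2 : r₂ ^ p.2 ≤ q ^ p.2 * s₂ ^ p.2 := by
    rw [← mul_pow]
    refine pow_le_pow_left₀ h2.le ?_ _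
    have := le_max_right (r₁ / s₁) (r₂ / s₂)
    rw [← hq] at this
    calc r₂ = r₂ / s₂ * s₂ := by field_simp
      _ ≤ q * s₂ := mul_le_mul_of_nonneg_right this hs2.le
  have e3 := hC (p.1 + p.2)
  push_cast at e3
  calc ‖a p‖ * ((p.1 : ℝ) + p.2 + 1) ^ 4 * (r₁ ^ p.1 * r₂ ^ p.2)
      ≤ ‖a p‖ * ((p.1 : ℝ) + p.2 + 1) ^ 4 * ((q ^ p.1 * s₁ ^ p.1) * (q ^ p.2 * s₂ ^ p.2)) := by
        gcongr
    _ = (((p.1 : ℝ) + p.2 + 1) ^ 4 * q ^ (p.1 + p.2)) * (‖a p‖ * (s₁ ^ p.1 * s₂ ^ p.2)) := by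
        rw [pow_add]
        ring
    _ ≤ C * (‖a p‖ * (s₁ ^ p.1 * s₂ ^ p.2)) := mul_le_mul_of_nonneg_right e3 (by positivity)

/-- the majorant -/
noncomputable def UU (a : ℕ × ℕ → ℂ) (r₁ r₂ : ℝ) (p : ℕ × ℕ) : ℝ :=
  ‖a p‖ * ((p.1 : ℝ) + p.2 + 1) ^ 4 * (r₁ ^ p.1 * r₂ ^ p.2)

/-- a monomial term is dominated -/
theorem term_le {a : ℕ × ℕ → ℂ} {r₁ r₂ : ℝ} (h1 : 1 ≤ r₁) (h2 : 1 ≤ r₂) (p : ℕ × ℕ) {c : ℝ}
    (hc : c ≤ ((p.1 : ℝ) + p.2 + 1) ^ 4) {x y : ℂ} {i j : ℕ} (hx : ‖x‖ ≤ r₁)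
    (hy : ‖y‖ ≤ r₂) (hi : i ≤ p.1) (hj : j ≤ p.2) {z : ℂ} (hz : ‖z‖ ≤ c) :
    ‖a p * (z * (x ^ i * y ^ j))‖ ≤ UU a r₁ r₂ p := by
  unfold UU
  rw [norm_mul, norm_mul, norm_mul, mul_assoc]
  refine mul_le_mul_of_nonneg_left ?_ (norm_nonneg _)
  exact mul_le_mul (hz.trans hc) (mul_le_mul (norm_pow_le h1 hx hi) (norm_pow_le h2 hy hj)
    (norm_nonneg _) (by positivity)) (by positivity) (by positivity)

/-- differentiation of a series in one variable -/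
theorem hasDerivAt_series {u : ℕ × ℕ → ℝ} (hu : Summable u) {g g' : ℕ × ℕ → ℂ → ℂ} {r : ℝ}
    (hr : 0 < r)
    (hg : ∀ p, ∀ y, ‖y‖ < r → HasDerivAt (g p) (g' p y) y)
    (hb : ∀ p, ∀ y, ‖y‖ < r → ‖g' p y‖ ≤ u p) (hb0 : ∀ p, ‖g p 0‖ ≤ u p) {y : ℂ} (hy : ‖y‖ < r) :
    HasDerivAt (fun z => ∑' p, g p z) (∑' p, g' p y) y := by
  have hball : ∀ z : ℂ, z ∈ Metric.ball (0 : ℂ) r ↔ ‖z‖ < r := fun z => by simp
  refine hasDerivAt_tsum_of_isPreconnected hu Metric.isOpen_ball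
    (convex_ball (0 : ℂ) r).isPreconnected (fun p z hz => hg p z ((hball z).1 hz))
    (fun p z hz => hb p z ((hball z).1 hz)) (y₀ := 0) ((hball 0).2 (by simpa using hr))
    (Summable.of_norm_bounded hu hb0) ((hball y).2 hy)

section

variable {a : ℕ × ℕ → ℂ} {r₁ r₂ : ℝ} {c : ℕ × ℕ → ℂ} {i j : ℕ × ℕ → ℕ}

theorem deriv_x (h1 : 1 ≤ r₁) (h2 : 1 ≤ r₂) (hU : Summable (UU a r₁ r₂))
    (hi : ∀ p, i p ≤ p.1) (hj : ∀ p, j p ≤ p.2)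
    (hc : ∀ p, ‖c p‖ ≤ ((p.1 : ℝ) + p.2 + 1) ^ 4)
    (hc' : ∀ p, ‖c p * (i p : ℂ)‖ ≤ ((p.1 : ℝ) + p.2 + 1) ^ 4)
    {x y : ℂ} (hx : ‖x‖ < r₁) (hy : ‖y‖ < r₂) :
    HasDerivAt (fun x => ∑' p, a p * (c p * (x ^ (i p) * y ^ (j p))))
      (∑' p, a p * (c p * (i p : ℂ) * (x ^ (i p - 1) * y ^ (j p)))) x := by
  refine hasDerivAt_series (g := fun p x => a p * (c p * (x ^ (i p) * y ^ (j p))))
    (g' := fun p x => a p * (c p * (i p : ℂ) * (x ^ (i p - 1) * y ^ (j p)))) hU (by linarith) (fun p z _ => ?_) (fun p z hz => ?_) (fun p => ?_) hx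
  · have := (((hasDerivAt_pow (i p) z).mul_const (y ^ (j p))).const_mul (c p)).const_mul (a p)
    refine this.congr_deriv ?_
    ring
  · exact term_le h1 h2 p (hc' p) hz.le hy.le ((Nat.sub_le _ _).trans (hi p)) (hj p) le_rfl
  · exact term_le h1 h2 p (hc p) (by rw [norm_zero]; linarith) hy.le (hi p) (hj p) le_rfl

theorem deriv_y (h1 : 1 ≤ r₁) (h2 : 1 ≤ r₂) (hU : Summable (UU a r₁ r₂))
    (hi : ∀ p, i p ≤ p.1) (hj : ∀ p, j p ≤ p.2)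
    (hc : ∀ p, ‖c p‖ ≤ ((p.1 : ℝ) + p.2 + 1) ^ 4)
    (hc' : ∀ p, ‖c p * (j p : ℂ)‖ ≤ ((p.1 : ℝ) + p.2 + 1) ^ 4)
    {x y : ℂ} (hx : ‖x‖ < r₁) (hy : ‖y‖ < r₂) :
    HasDerivAt (fun y => ∑' p, a p * (c p * (x ^ (i p) * y ^ (j p))))
      (∑' p, a p * (c p * (j p : ℂ) * (x ^ (i p) * y ^ (j p - 1)))) y := by
  refine hasDerivAt_series (g := fun p y => a p * (c p * (x ^ (i p) * y ^ (j p))))
    (g' := fun p y => a p * (c p * (j p : ℂ) * (x ^ (i p) * y ^ (j p - 1)))) hU (by linarith) (fun p z _ => ?_) (fun p z hz => ?_) (fun p => ?_) hy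
  · have := (((hasDerivAt_pow (j p) z).const_mul (x ^ (i p))).const_mul (c p)).const_mul (a p)
    refine this.congr_deriv ?_
    ring
  · exact term_le h1 h2 p (hc' p) hx.le hz.le (hi p) ((Nat.sub_le _ _).trans (hj p)) le_rfl
  · exact term_le h1 h2 p (hc p) hx.le (by rw [norm_zero]; linarith) (hi p) (hj p) le_rfl

end

end Q73.Vor
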